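import Mathlib
import Pool.Graph.R_seed8.Helper621.DAP.P_main

set_option autoImplicit false

namespace Pool.Agent.Results.MP_7a5dd1_an.UniqueMaximalIdeal

open Pool.Agent.Helper621.DAP

section General

variable {E : Type} [NormedAddCommGroup E] [NormedSpace ℂ E]

/-- the identity factors through `T` -/
def Fac (T : E →L[ℂ] E) : Prop := ∃ a b : E →L[ℂ] E, b * T * a = 1

lemma fac_of_mul {T : E →L[ℂ] E} {x y : E →L[ℂ] E} (h : Fac (x * T * y)) : Fac T := by
  obtain ⟨a, b, h⟩ := h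
  exact ⟨y * a, b * x, by rw [← h]; simp only [mul_assoc]⟩

lemma fac_add (hf : ∀ P : E →L[ℂ] E, Fac P ∨ Fac (1 - P)) {S T : E →L[ℂ] E}
    (h : Fac (S + T)) : Fac S ∨ Fac T := by
  obtain ⟨a, b, h⟩ := h
  rcases hf (b * S * a) with h1 | h1
  · exact Or.inl (fac_of_mul h1)
  · right
    have : 1 - b * S * a = b * T * a := by
      rw [← h, mul_add, add_mul]
      abel
    rw [this] at h1
    exact fac_of_mul h1

lemma not_fac_zero [Nontrivial E] : ¬ Fac (0 : E →L[ℂ] E) := by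
  rintro ⟨a, b, h⟩
  rw [mul_zero, zero_mul] at h
  exact zero_ne_one h

lemma fac_sum [Nontrivial E] (hf : ∀ P : E →L[ℂ] E, Fac P ∨ Fac (1 - P)) {ι : Type}
    (s : Finset ι) (T : ι → (E →L[ℂ] E)) (h : Fac (∑ i ∈ s, T i)) :
    ∃ i ∈ s, Fac (T i) := by
  classical
  induction s using Finset.induction_on with
  | empty => exact absurd (by simpa using h) not_fac_zero
  | insert j s hj ih =>
    rw [Finset.sum_insert hj] at h
    rcases fac_add hf h with h | h
    · exact ⟨j, Finset.mem_insert_self _ _, h⟩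
    · obtain ⟨i, hi, h'⟩ := ih h
      exact ⟨i, Finset.mem_insert_of_mem hi, h'⟩

lemma isOpen_fac [CompleteSpace E] : IsOpen {T : E →L[ℂ] E | Fac T} := by
  rw [isOpen_iff_mem_nhds]
  rintro T ⟨a, b, h⟩
  have hc : Continuous fun S : E →L[ℂ] E => b * S * a :=
    (continuous_const.mul continuous_id).mul continuous_const
  have h1 : {S : E →L[ℂ] E | IsUnit (b * S * a)} ∈ nhds T := by
    refine hc.continuousAt.preimage_mem_nhds (t := {U : E →L[ℂ] E | IsUnit U}) ?_
    apply Units.isOpen.mem_nhds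
    show IsUnit (b * T * a)
    rw [h]
    exact isUnit_one
  filter_upwards [h1] with S hS
  obtain ⟨u, hu⟩ := hS
  refine ⟨a * ((u⁻¹ : (E →L[ℂ] E)ˣ) : E →L[ℂ] E), b, ?_⟩
  rw [← mul_assoc, ← hu]
  exact u.mul_inv

lemma general [Nontrivial E] [CompleteSpace E] (hf : ∀ P : E →L[ℂ] E, Fac P ∨ Fac (1 - P)) :
    (∀ (n : ℕ) (T : Fin n → (E →L[ℂ] E)), ∑ i, T i = 1 → ∃ i, Fac (T i)) ∧
    ∃ M : TwoSidedIdeal (E →L[ℂ] E),
        (∀ T : E →L[ℂ] E, T ∈ M ↔ ¬ ∃ a b : E →L[ℂ] E, b * T * a = 1) ∧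
        IsClosed {T : E →L[ℂ] E | T ∈ M} ∧ M ≠ ⊤ ∧
        ∀ J : TwoSidedIdeal (E →L[ℂ] E), J ≠ ⊤ → J ≤ M := by
  refine ⟨?_, ?_⟩
  · intro n T hT
    obtain ⟨i, -, hi⟩ := fac_sum hf Finset.univ T (by rw [hT]; exact ⟨1, 1, by simp⟩)
    exact ⟨i, hi⟩
  · refine ⟨TwoSidedIdeal.mk' {T : E →L[ℂ] E | ¬ Fac T} not_fac_zero ?_ ?_ ?_ ?_, ?_, ?_, ?_, ?_⟩
    · intro x y hx hy h
      rcases fac_add hf h with h | h
      · exact hx h
      · exact hy h
    · rintro x hx ⟨a, b, h⟩
      exact hx ⟨a, -b, by rw [← h]; simp⟩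
    · intro x y hy h
      have : x * y = x * y * 1 := by simp
      rw [this] at h
      exact hy (fac_of_mul h)
    · intro x y hx h
      have : x * y = 1 * x * y := by simp
      rw [this] at h
      exact hx (fac_of_mul h)
    · intro T
      rw [TwoSidedIdeal.mem_mk']
      exact Iff.rfl
    · simp only [TwoSidedIdeal.mem_mk']
      exact isOpen_fac.isClosed_compl
    · intro htop
      have h1 : (1 : E →L[ℂ] E) ∈ (⊤ : TwoSidedIdeal (E →L[ℂ] E)) := trivial
      rw [← htop, TwoSidedIdeal.mem_mk'] at h1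
      exact h1 ⟨1, 1, by simp⟩
    · intro J hJ T hT
      rw [TwoSidedIdeal.mem_mk']
      rintro ⟨a, b, h⟩
      apply hJ
      have h1 : b * T * a ∈ J := J.mul_mem_right _ _ (J.mul_mem_left _ _ hT)
      rw [h] at h1
      exact (TwoSidedIdeal.one_mem_iff J).1 h1

end General

lemma fac_or (P : DA →L[ℂ] DA) :
    (∃ a b : DA →L[ℂ] DA, b * P * a = 1) ∨ ∃ a b : DA →L[ℂ] DA, b * (1 - P) * a = 1 := by
  rcases factor P with ⟨a, b, h⟩ | ⟨a, b, h⟩
  · exact Or.inl ⟨a, b, ContinuousLinearMap.ext h⟩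
  · exact Or.inr ⟨a, b, ContinuousLinearMap.ext h⟩

lemma nontriv : Nontrivial DA := by
  refine ⟨one, 0, ?_⟩
  intro h1
  have h2 : ev (one) 0 = 1 := ev_mk _ _ _ (by simp)
  rw [h1] at h2
  simp [ev] at h2

lemma range_iso {P : DA →L[ℂ] DA} (hP : P * P = P)
    (h : ∃ a b : DA →L[ℂ] DA, b * P * a = 1) :
    Nonempty (LinearMap.range P.toLinearMap ≃L[ℂ] DA) := by
  obtain ⟨e⟩ := primary_e
  obtain ⟨a, b, hab⟩ := h
  have hPP : ∀ x, P (P x) = P x := fun x => congrArg (fun F : DA →L[ℂ] DA => F x) hP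
  refine primary_aux _ P (fun x => ⟨x, rfl⟩) ?_ a b
    (fun f => congrArg (fun F : DA →L[ℂ] DA => F f) hab) e
  rintro x ⟨y, rfl⟩
  exact hPP y

/-- **The factorization property and the unique maximal ideal for the disc algebra `A`.**

(1) (Primary factorization property) For EVERY bounded operator `T` on `A` (not only for
projections) the identity of `A` factors through `T` or through `1 - T`; more generally, if finitely
many bounded operators have sum `1`, the identity factors through one of them.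

(2) The operators through which the identity does not factor form a norm-closed two-sided ideal of
`B(A)`, and this ideal contains every proper two-sided ideal of `B(A)` (closed or not): `B(A)` has a
unique maximal ideal.

(3) If finitely many bounded projections on `A` have sum `1`, then the range of one of them is
isomorphic to `A` (two projections: `A` is primary). -/
theorem result :
    ∀ A : Submodule ℂ (BoundedContinuousFunction (Metric.closedBall (0:ℂ) 1) ℂ),
      (∀ f : BoundedContinuousFunction (Metric.closedBall (0:ℂ) 1) ℂ,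
        f ∈ A ↔ ∃ g : ℂ → ℂ, DifferentiableOn ℂ g (Metric.ball (0:ℂ) 1) ∧
          ∀ z : Metric.closedBall (0:ℂ) 1, g (z : ℂ) = f z) →
      (∀ T : A →L[ℂ] A, (∃ a b : A →L[ℂ] A, b * T * a = 1) ∨
        ∃ a b : A →L[ℂ] A, b * (1 - T) * a = 1) ∧
      (∀ (n : ℕ) (T : Fin n → (A →L[ℂ] A)), ∑ i, T i = 1 →
        ∃ i, ∃ a b : A →L[ℂ] A, b * T i * a = 1) ∧
      (∃ M : TwoSidedIdeal (A →L[ℂ] A),
        (∀ T : A →L[ℂ] A, T ∈ M ↔ ¬ ∃ a b : A →L[ℂ] A, b * T * a = 1) ∧
        IsClosed {T : A →L[ℂ] A | T ∈ M} ∧ M ≠ ⊤ ∧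
        ∀ J : TwoSidedIdeal (A →L[ℂ] A), J ≠ ⊤ → J ≤ M) ∧
      (∀ (n : ℕ) (P : Fin n → (A →L[ℂ] A)), (∀ i, P i * P i = P i) → ∑ i, P i = 1 →
        ∃ i, Nonempty (LinearMap.range (P i).toLinearMap ≃L[ℂ] A)) := by
  intro A hA
  have hAD : A = DA := by
    ext f
    rw [hA f]
    exact Iff.rfl
  subst hAD
  have : CompleteSpace DA := isClosed_DA.completeSpace_coe
  have := nontriv
  have hg := general (E := DA) fac_or
  refine ⟨fac_or, hg.1, hg.2, ?_⟩
  intro n P hP hs
  obtain ⟨i, hi⟩ := hg.1 n P hs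
  exact ⟨i, range_iso (hP i) hi⟩

end Pool.Agent.Results.MP_7a5dd1_an.UniqueMaximalIdeal
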